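import Pool.Agent.H255R.MR.Map

/-!
# Parshin's conjecture for products of regular surfaces and for products of curves
-/

open CategoryTheory AlgebraicGeometry

universe u v w x

namespace Pool.Agent.Results.MP_de59b4_ag.RegularSurfaces

open Pool.Agent.H914 Pool.Agent.H914.VarClass Pool.Agent.H914.VarClass.Obj Pool.Agent.W492.BB
  Pool.Agent.W550.Corr Pool.Agent.TH133 Pool.Agent.H255R.HR Pool.Agent.H255R.MR

/-- Consider the smooth projective varieties `X` over an algebraic closure `k` of a finite field, and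
fix an integer `m ≥ 1`. Let `M(X)` be the sum of the motivic cohomology groups
`H^{2n-m}(X, ℚ(n)) = CH^n(X, m)_ℚ` for all `n`, a module theory over the Chow groups; the classes
of weight `n` are those in `H^{2n-m}(X, ℚ(n))`. (`ZeroUpTo 𝓜 R X` is the statement
`H^{2n-m}(X, ℚ(n)) = 0` for all `n ≤ R`; the group `H^i(X, ℚ(n))` of a variety `X` over a finite
field is a subgroup of the one of `X` over the closure, by a transfer argument, so Parshin's
conjecture may be formulated over `k`.)

Let `𝒞` be a class of curves with `HasGalQuotients` (for example one hyperelliptic curve, or all the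
hyperelliptic and the elliptic curves). For all varieties `U` and all `R` and `N` the following
statements are equivalent.

1. `H^{2n-m}(X, ℚ(n)) = 0` for all `n ≤ R`, for the varieties `X = U × A` and `X = U × A × S`, where
`A` is a product of at most `N` regular surfaces dominated by products of two curves in `𝒞`, and `S`
is a curve in `𝒞`.
2. The same without the condition that the surfaces be regular.
3. `H^{2n-m}(X, ℚ(n)) = 0` for all `n ≤ R` and all `X = U × W`, where `W` is a product of at most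
`2 N + 1` curves in `𝒞`.
4. `H^{2n-m}(X, ℚ(n)) = 0` for all `n ≤ R` and all varieties `X` which are dominated by
varieties `U × W` as in 3. -/
theorem result {k : Type u} [Field k] {𝒱 : VarClass k} (C : TheoryData.{u, v, 0} 𝒱 ℚ)
    [IsChowProj C] {F : Type w} [Field F] [CharZero F] (H : WeilTheoryData.{u, v, w} C F)
    [IsWeilProj H] (M : ModData.{u, v, x} C) (hM : IsModTheory M) (𝓜 : Fam M)
    (𝒞 : 𝒱.Obj → Prop) (hG : HasGalQuotients.{u, v, w, x} H 𝒞) (U : 𝒱.Obj) (R : ℤ) (N : ℕ) :
    List.TFAE [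
      ∀ m ≤ N, ∀ A : 𝒱.Obj, IsProdOf U (IsRegDominated.{u, v, w, x} H 𝒞) m A →
        ZeroUpTo 𝓜 R A ∧ ∀ S : 𝒱.Obj, 𝒞 S → ZeroUpTo 𝓜 R (A.prod S),
      ∀ m ≤ N, ∀ A : 𝒱.Obj, IsProdOf U (IsDominated.{u, v, x} C 𝒞) m A →
        ZeroUpTo 𝓜 R A ∧ ∀ S : 𝒱.Obj, 𝒞 S → ZeroUpTo 𝓜 R (A.prod S),
      ∀ l ≤ 2 * N + 1, ∀ W : 𝒱.Obj, IsProdOf U 𝒞 l W → ZeroUpTo 𝓜 R W,
      ∀ l ≤ 2 * N + 1, ∀ W X : 𝒱.Obj, IsProdOf U 𝒞 l W → IsDominatedBy C W X →
        ZeroUpTo 𝓜 R X] :=
  tfae1 (M := M) (𝓜 := 𝓜) (𝓝 := zeroFam M) hG U R N _ fun X => (good_zero 𝓜 R X).symm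

end Pool.Agent.Results.MP_de59b4_ag.RegularSurfaces
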